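import Pool.Agent.Helper52.SZ.Defs

/-!
Project SZ, module SZ-11: small facts on averages, densities and star words.
-/

namespace Pool.Agent.Helper52.SZ

open Combinatorics

theorem dn_nostar {α ι : Type} [Finite α] [Finite ι] :
    dn {w : ι → Option α | ∀ j, w j ≠ none}
      = ((Nat.card α : ℝ) / ((Nat.card α : ℝ) + 1)) ^ (Nat.card ι) := by
  have hinj : Function.Injective (inc : (ι → α) → (ι → Option α)) := by
    intro u v huv
    funext j
    have := congrFun huv j
    simpa [inc] using this
  have hset : {w : ι → Option α | ∀ j, w j ≠ none} = Set.range (inc : (ι → α) → _) := by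
    ext w
    constructor
    · intro hw
      refine ⟨fun j => (w j).get (Option.ne_none_iff_isSome.mp (hw j)), ?_⟩
      funext j
      simp [inc]
    · rintro ⟨u, rfl⟩ j
      simp [inc]
  have h1 : Nat.card {w : ι → Option α | ∀ j, w j ≠ none} = Nat.card α ^ Nat.card ι := by
    rw [hset, ← Nat.card_congr (Equiv.ofInjective _ hinj), Nat.card_fun]
  have h2 : Nat.card (ι → Option α) = (Nat.card α + 1) ^ Nat.card ι := by
    rw [Nat.card_fun, Finite.card_option]
  rw [dn_eq, h1, h2, div_pow]
  push_cast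
  rfl

theorem dn_firststar {α : Type} [Finite α] (M : ℕ) :
    dn {w : Option (Fin M) → Option α | w none = none} = 1 / ((Nat.card α : ℝ) + 1) := by
  have hA : {w : Option (Fin M) → Option α | w none = none}
      = {w | (Equiv.piOptionEquivProd (β := fun _ : Option (Fin M) => Option α)) w ∈
          {p : Option α × (Fin M → Option α) | p.1 = none}} := by
    ext w
    simp [Equiv.piOptionEquivProd]
  rw [hA, dn_equiv, dn, av_prod]
  have h1 : ∀ x : Option α, av (fun y : Fin M → Option α =>
      ({p : Option α × (Fin M → Option α) | p.1 = none}.indicator (fun _ => (1 : ℝ))) (x, y))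
      = (({none} : Set (Option α)).indicator (fun _ => (1 : ℝ))) x := by
    intro x
    by_cases hx : x = none
    · subst hx
      simp [av_const]
    · have : ∀ y : Fin M → Option α,
          ({p : Option α × (Fin M → Option α) | p.1 = none}.indicator (fun _ => (1 : ℝ))) (x, y)
            = 0 := by
        intro y
        simp [hx]
      simp only [this, av_zero]
      simp [hx]
  simp_rw [h1]
  change dn ({none} : Set (Option α)) = _
  rw [dn_eq, Finite.card_option]
  simp

theorem av_lower {X : Type} [Finite X] {g : X → ℝ} {a b : ℝ} (hb : 0 ≤ b)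
    (h1 : ∀ x, g x ≤ a + b) (h2 : a - b ≤ av g) (x : X) :
    a - 2 * b * (Nat.card X : ℝ) ≤ g x := by
  classical
  have := Fintype.ofFinite X
  have : Nonempty X := ⟨x⟩
  rw [Nat.card_eq_fintype_card]
  have hc : (1 : ℝ) ≤ Fintype.card X := by exact_mod_cast Fintype.card_pos
  rw [av_eq_sum, le_div_iff₀ (by linarith)] at h2
  have h3 : ∑ y, g y = g x + ∑ y ∈ Finset.univ.erase x, g y :=
    (Finset.add_sum_erase _ _ (Finset.mem_univ x)).symm
  have h4 : ∑ y ∈ Finset.univ.erase x, g y ≤ ((Fintype.card X : ℝ) - 1) * (a + b) := by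
    have := Finset.sum_le_card_nsmul (Finset.univ.erase x) g (a + b) fun y _ => h1 y
    rw [Finset.card_erase_of_mem (Finset.mem_univ x), Finset.card_univ, nsmul_eq_mul,
      Nat.cast_sub (by exact_mod_cast hc)] at this
    simpa using this
  have h5 : (a - b) * (Fintype.card X : ℝ) ≤ g x + ((Fintype.card X : ℝ) - 1) * (a + b) := by
    linarith
  nlinarith

theorem choose_z {Z : Type} [Finite Z] [Nonempty Z] {a b : Z → ℝ} {δ γ θ : ℝ} (hγ : 0 < γ)
    (hθ : 0 < θ) (ha : ∀ z, a z ≤ δ + γ) (hav : δ - γ ≤ av a) (hb : ∀ z, b z ≤ 1)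
    (hbv : 2 * θ ≤ av b) : ∃ z, δ - 4 * γ / θ ≤ a z ∧ θ ≤ b z := by
  by_contra hcon
  push Not at hcon
  have h1 : θ ≤ dn {z | θ ≤ b z} := dn_ge_of_av_ge hθ.le hb hbv
  have h2 : ∀ z, (4 * γ / θ) * ({z | θ ≤ b z}.indicator (fun _ => (1 : ℝ)) z)
      ≤ (δ + γ) - a z := by
    intro z
    by_cases hz : θ ≤ b z
    · have h3 : a z < δ - 4 * γ / θ := by
        by_contra h4
        exact absurd hz (not_le.mpr (hcon z (not_lt.mp h4)))
      rw [Set.indicator_of_mem (show z ∈ {z | θ ≤ b z} from hz)]
      linarith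
    · rw [Set.indicator_of_notMem (show z ∉ {z | θ ≤ b z} from hz)]
      linarith [ha z]
  have h3 := av_mono h2
  rw [av_const_mul, av_sub, av_const] at h3
  have h4 : av ({z | θ ≤ b z}.indicator fun _ => (1 : ℝ)) = dn {z | θ ≤ b z} := rfl
  rw [h4] at h3
  have h5 : 4 * γ / θ * θ ≤ 4 * γ / θ * dn {z | θ ≤ b z} :=
    mul_le_mul_of_nonneg_left h1 (by positivity)
  rw [div_mul_cancel₀ _ hθ.ne'] at h5
  linarith

theorem line_of_star {α ι : Type} (A : Set (ι → Option α)) (w : ι → Option α)
    (hs : ∃ j, w j = none) (hw : w ∈ A) (hi : ∀ i, inc (rep i w) ∈ A) :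
    ∃ l : Line (Option α) ι, ∀ x, l x ∈ A := by
  refine ⟨⟨fun j => (w j).map some, ?_⟩, ?_⟩
  · obtain ⟨j, hj⟩ := hs
    exact ⟨j, by simp [hj]⟩
  · intro x
    cases x with
    | none =>
      convert hw using 1
      funext j
      simp only [Line.coe_apply]
      cases w j <;> rfl
    | some i =>
      convert hi i using 1
      funext j
      simp only [Line.coe_apply, inc, rep]
      cases w j <;> rfl

end Pool.Agent.Helper52.SZ

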